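import Mathlib

/-!
# The `k`-game length can be cubic

We follow the definitions of the problem file. An automaton is a map `δ : Q → Γ → Q`.
In round `i` of the `k`-game Alice picks a letter (given by her strategy from the list of the
previous answers of Bob), and, if the current set is not a singleton after her move, Bob answers by
a word of length at most `k`.

The automaton used for the lower bound has `k + 1` levels. At level `0` (where the current set has
to be when Alice moves, as otherwise the letter `home` wins at once) there are `x` waiting places and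
two counters with `R + 1` positions each. A letter `target p q` marks the tokens at `p` and at `q`
and sends everything to level `k`; if `p` and `q` are a position `i` of the first and a position `j`
of the second counter, then the marked tokens will represent the counter value smaller by one (they
are merged when the value is `0`), otherwise they will represent the largest counter value. Bob has
to bring all tokens back to level `0`, which takes him exactly `k` letters `shuffle f`; the marked
tokens come back to the counters, and Bob can bring all the other ones to the waiting places.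
Hence every merge costs Alice `(R + 1) ^ 2 + 1` moves.
-/

namespace Pool.Agent.Results.MP_3d7070_lc.CubicGame

variable {Q Γ : Type}

/-- The extended transition map of the automaton `δ : Q → Γ → Q`:
`run δ q w` is the state `q · w`, the letters of `w` being read from left to right. -/
def run (δ : Q → Γ → Q) (q : Q) (w : List Γ) : Q := w.foldl δ q

/-- `image δ P w` is the set `P · w = {p · w : p ∈ P}`. -/
def image (δ : Q → Γ → Q) (P : Set Q) (w : List Γ) : Set Q := (fun q => run δ q w) '' P

/-- The current set at the beginning of round `i` (rounds are numbered `0, 1, 2, …`) of the play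
that starts from the set `P`, in which Alice follows the strategy `σ` (a letter for every list of
previous answers of Bob) and Bob answers by the words `β 0, β 1, …`. -/
def position (δ : Q → Γ → Q) (P : Set Q) (σ : List (List Γ) → Γ) (β : ℕ → List Γ) : ℕ → Set Q
  | 0 => P
  | i + 1 =>
      image δ (image δ (position δ P σ β i) [σ ((List.range i).map β)]) (β i)

/-- The current set just after Alice's move in round `i`. -/
def afterAlice (δ : Q → Γ → Q) (P : Set Q) (σ : List (List Γ) → Γ) (β : ℕ → List Γ) (i : ℕ) :
    Set Q :=
  image δ (position δ P σ β i) [σ ((List.range i).map β)]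

/-- Bob's answers are legal in the `k`-game: all of them have length at most `k`. -/
def Legal (k : ℕ) (β : ℕ → List Γ) : Prop := ∀ i, (β i).length ≤ k

/-- `δ` is an `A_k`-automaton: Alice has a winning strategy in the `k`-game on `δ`. -/
def IsAk (k : ℕ) (δ : Q → Γ → Q) : Prop :=
  ∃ σ : List (List Γ) → Γ, ∀ β : ℕ → List Γ, Legal k β →
    ∃ i, (afterAlice δ Set.univ σ β i).ncard = 1

/-- Alice has a strategy in the `k`-game on `δ` that wins within at most `N` of her moves against
every play of Bob. -/
def WinsWithin (k : ℕ) (δ : Q → Γ → Q) (N : ℕ) : Prop :=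
  ∃ σ : List (List Γ) → Γ, ∀ β : ℕ → List Γ, Legal k β →
    ∃ i < N, (afterAlice δ Set.univ σ β i).ncard = 1

/-- The `k`-game length `L_k(δ)`. -/
noncomputable def gameLength (k : ℕ) (δ : Q → Γ → Q) : ℕ := sInf {N | WinsWithin k δ N}

/-! ### Recursive description of the game -/

/-- Alice, to move from the set `P`, can win within `N` of her moves. -/
def Wins (k : ℕ) (δ : Q → Γ → Q) : ℕ → Set Q → Prop
  | 0, _ => False
  | N + 1, P => ∃ a : Γ, (∃ q, image δ P [a] = {q}) ∨
      ∀ u : List Γ, u.length ≤ k → Wins k δ N (image δ (image δ P [a]) u)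

theorem image_nil (δ : Q → Γ → Q) (P : Set Q) : image δ P [] = P := by
  simp [image, run]

theorem image_image (δ : Q → Γ → Q) (P : Set Q) (u v : List Γ) :
    image δ (image δ P u) v = image δ P (u ++ v) := by
  simp [image, run, Set.image_image]

theorem image_mono (δ : Q → Γ → Q) {P P' : Set Q} (h : P ⊆ P') (w : List Γ) :
    image δ P w ⊆ image δ P' w := Set.image_mono h

theorem image_nonempty (δ : Q → Γ → Q) {P : Set Q} (h : P.Nonempty) (w : List Γ) :
    (image δ P w).Nonempty := h.image _

theorem Wins.mono_set {k : ℕ} {δ : Q → Γ → Q} {N : ℕ} : ∀ {P P' : Set Q}, P ⊆ P' → P.Nonempty →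
    Wins k δ N P' → Wins k δ N P := by
  induction N with
  | zero => intro P P' _ _ h; exact h
  | succ N ih =>
    intro P P' hs hn h
    obtain ⟨a, ha⟩ := h
    refine ⟨a, ?_⟩
    rcases ha with ⟨q, hq⟩ | ha
    · left
      refine ⟨q, ?_⟩
      apply (Set.subset_singleton_iff_eq.mp (hq ▸ image_mono δ hs [a])).resolve_left
      exact (image_nonempty δ hn [a]).ne_empty
    · right
      intro u hu
      exact ih (image_mono δ (image_mono δ hs _) _) (image_nonempty δ (image_nonempty δ hn _) _)
        (ha u hu)

theorem Wins.succ {k : ℕ} {δ : Q → Γ → Q} {N : ℕ} : ∀ {P : Set Q},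
    Wins k δ N P → Wins k δ (N + 1) P := by
  induction N with
  | zero => intro P h; exact h.elim
  | succ N ih =>
    intro P h
    obtain ⟨a, ha⟩ := h
    refine ⟨a, ?_⟩
    rcases ha with hq | ha
    · exact Or.inl hq
    · exact Or.inr fun u hu => ih (ha u hu)

theorem Wins.mono {k : ℕ} {δ : Q → Γ → Q} {N M : ℕ} (h : N ≤ M) {P : Set Q}
    (hw : Wins k δ N P) : Wins k δ M P := by
  induction h with
  | refl => exact hw
  | step _ ih => exact ih.succ

theorem position_succ' (δ : Q → Γ → Q) (P : Set Q) (σ : List (List Γ) → Γ) (β : ℕ → List Γ)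
    (i : ℕ) :
    position δ P σ β (i + 1) =
      position δ (image δ (image δ P [σ []]) (β 0)) (fun h => σ (β 0 :: h)) (fun j => β (j + 1))
        i := by
  induction i with
  | zero => simp [position]
  | succ i ih =>
    rw [position, ih]
    conv_rhs => rw [position]
    rw [List.range_succ_eq_map]
    simp [List.map_map, Function.comp_def]

theorem afterAlice_succ (δ : Q → Γ → Q) (P : Set Q) (σ : List (List Γ) → Γ) (β : ℕ → List Γ)
    (i : ℕ) :
    afterAlice δ P σ β (i + 1) =
      afterAlice δ (image δ (image δ P [σ []]) (β 0)) (fun h => σ (β 0 :: h))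
        (fun j => β (j + 1)) i := by
  unfold afterAlice
  rw [position_succ', List.range_succ_eq_map]
  simp [List.map_map, Function.comp_def]

theorem wins_of_strategy {k : ℕ} {δ : Q → Γ → Q} {N : ℕ} : ∀ {P : Set Q}
    {σ : List (List Γ) → Γ},
    (∀ β : ℕ → List Γ, Legal k β → ∃ i < N, (afterAlice δ P σ β i).ncard = 1) →
    Wins k δ N P := by
  induction N with
  | zero =>
    intro P σ h
    obtain ⟨i, hi, _⟩ := h (fun _ => []) (fun _ => by simp)
    exact absurd hi (Nat.not_lt_zero i)
  | succ N ih =>
    intro P σ h
    refine ⟨σ [], ?_⟩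
    by_cases h1 : (image δ P [σ []]).ncard = 1
    · left
      exact Set.ncard_eq_one.mp h1
    · right
      intro u hu
      apply ih (σ := fun h => σ (u :: h))
      intro β hβ
      obtain ⟨i, hi, hc⟩ := h (fun j => Nat.casesOn j u β) (by
        intro j
        cases j with
        | zero => exact hu
        | succ j => exact hβ j)
      cases i with
      | zero => exact absurd (by simpa [afterAlice, position] using hc) h1
      | succ i =>
        refine ⟨i, by omega, ?_⟩
        rw [afterAlice_succ] at hc
        exact hc

theorem strategy_of_wins {k : ℕ} {δ : Q → Γ → Q} {N : ℕ} : ∀ {P : Set Q}, Wins k δ N P →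
    ∃ σ : List (List Γ) → Γ, ∀ β : ℕ → List Γ, Legal k β →
      ∃ i < N, (afterAlice δ P σ β i).ncard = 1 := by
  induction N with
  | zero => intro P h; exact h.elim
  | succ N ih =>
    intro P h
    obtain ⟨a, ha⟩ := h
    rcases ha with ⟨q, hq⟩ | ha
    · refine ⟨fun _ => a, fun β _ => ⟨0, by omega, ?_⟩⟩
      simp [afterAlice, position, hq]
    · have : Nonempty (List (List Γ) → Γ) := ⟨fun _ => a⟩
      choose! τ hτ using fun (u : List Γ) (hu : u.length ≤ k) => ih (ha u hu)
      refine ⟨fun h => match h with
        | [] => a
        | u :: t => τ u t, fun β hβ => ?_⟩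
      obtain ⟨i, hi, hc⟩ := hτ (β 0) (hβ 0) (fun j => β (j + 1)) (fun j => hβ (j + 1))
      refine ⟨i + 1, by omega, ?_⟩
      rw [afterAlice_succ]
      exact hc

theorem winsWithin_iff {k : ℕ} {δ : Q → Γ → Q} {N : ℕ} :
    WinsWithin k δ N ↔ Wins k δ N Set.univ :=
  ⟨fun ⟨_, h⟩ => wins_of_strategy h, strategy_of_wins⟩

theorem isAk_of_wins {k : ℕ} {δ : Q → Γ → Q} {N : ℕ} (h : Wins k δ N Set.univ) : IsAk k δ := by
  obtain ⟨σ, hσ⟩ := strategy_of_wins h
  exact ⟨σ, fun β hβ => let ⟨i, _, hi⟩ := hσ β hβ; ⟨i, hi⟩⟩

theorem le_gameLength {k : ℕ} {δ : Q → Γ → Q} {N M : ℕ} (h : Wins k δ N Set.univ)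
    (hM : ∀ N, Wins k δ N Set.univ → M ≤ N) : M ≤ gameLength k δ := by
  apply le_csInf
  · exact ⟨N, winsWithin_iff.mpr h⟩
  · intro N' hN'
    exact hM N' (winsWithin_iff.mp hN')

/-! ### Winning from pairs is enough -/

theorem wins_of_pair_aux {k : ℕ} {δ : Q → Γ → Q} {m K : ℕ}
    (hK : ∀ R : Set Q, R.Finite → R.Nonempty → R.ncard < m → Wins k δ K R) {M : ℕ} :
    ∀ {D P : Set Q}, P.Finite → D ⊆ P → D.Nontrivial → P.ncard ≤ m → Wins k δ M D →
      Wins k δ (M + K) P := by
  induction M with
  | zero => intro D P _ _ _ _ h; exact h.elim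
  | succ M ih =>
    intro D P hfin hs hD hP h
    obtain ⟨a, ha⟩ := h
    have hPne : P.Nonempty := hD.nonempty.mono hs
    rw [Nat.add_right_comm]
    refine ⟨a, Or.inr fun u hu => ?_⟩
    rw [image_image] 
    by_cases hlt : (image δ P ([a] ++ u)).ncard < m
    · exact (hK _ (hfin.image _) (image_nonempty δ hPne _) hlt).mono (by omega)
    · have hle : (image δ P ([a] ++ u)).ncard ≤ P.ncard := Set.ncard_image_le hfin
      have heq : (image δ P ([a] ++ u)).ncard = P.ncard := by omega
      have hinj : Set.InjOn (fun q => run δ q ([a] ++ u)) P :=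
        Set.injOn_of_ncard_image_eq heq hfin
      have hD' : (image δ D ([a] ++ u)).Nontrivial := by
        obtain ⟨x, hx, y, hy, hxy⟩ := hD
        exact ⟨_, ⟨x, hx, rfl⟩, _, ⟨y, hy, rfl⟩, fun h => hxy (hinj (hs hx) (hs hy) h)⟩
      apply ih (hfin.image _) (image_mono δ hs _) hD' (heq.le.trans hP)
      rcases ha with ⟨q, hq⟩ | ha
      · exfalso
        rw [← image_image, hq] at hD'
        obtain ⟨x, hx, y, hy, hxy⟩ := hD'
        simp [image] at hx hy
        exact hxy (hx.trans hy.symm)
      · have := ha u hu
        rwa [image_image] at this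

theorem wins_of_pairs {k : ℕ} {δ : Q → Γ → Q} [Nonempty Γ] {M : ℕ}
    (hpair : ∀ p q : Q, p ≠ q → Wins k δ M {p, q}) (m : ℕ) :
    ∀ R : Set Q, R.Finite → R.Nonempty → R.ncard ≤ m → Wins k δ (m * M + 1) R := by
  induction m with
  | zero =>
    intro R hf hn hc
    exact absurd ((Set.ncard_pos hf).mpr hn) (by omega)
  | succ m ih =>
    intro R hf hn hc
    by_cases h1 : R.Nontrivial
    · obtain ⟨p, hp, q, hq, hpq⟩ := h1
      have := wins_of_pair_aux (m := m + 1) (K := m * M + 1) (M := M)
        (fun R hf hn hR => ih R hf hn (by omega)) (D := {p, q}) (P := R) hf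
        (by intro z hz; rcases hz with rfl | rfl <;> assumption)
        ⟨p, by simp, q, by simp, hpq⟩ hc (hpair p q hpq)
      refine this.mono ?_
      rw [Nat.succ_mul]; omega
    · have hs : R.Subsingleton := Set.not_nontrivial_iff.mp h1
      obtain ⟨q, hq⟩ := hn
      have hR : R = {q} := hs.eq_singleton_of_mem hq
      have : Wins k δ 1 R := by
        obtain ⟨a⟩ := ‹Nonempty Γ›
        refine ⟨a, Or.inl ⟨run δ q [a], ?_⟩⟩
        rw [hR]; simp [image]
      exact this.mono (by omega)

/-! ### Duplicating states does not change the game -/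

theorem wins_dup_iff {Q' : Type} {k : ℕ} {δ : Q → Γ → Q} (π : Q' → Q) (ι : Q → Q')
    (hπ : ∀ q, π (ι q) = q) {N : ℕ} : ∀ {P' : Set Q'},
    Wins k (fun q' a => ι (δ (π q') a)) N P' ↔ Wins k δ N (π '' P') := by
  have h1 : ∀ (P' : Set Q') (a : Γ),
      image (fun q' a => ι (δ (π q') a)) P' [a] = ι '' (image δ (π '' P') [a]) := by
    intro P' a
    simp [image, run, Set.image_image]
  have h2 : ∀ (u : List Γ) (q : Q), run (fun q' a => ι (δ (π q') a)) (ι q) u = ι (run δ q u) := by
    intro u
    induction u with
    | nil => intro q; rfl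
    | cons a u ih =>
      intro q
      have := ih (δ q a)
      simp only [run, List.foldl_cons, hπ] at this ⊢
      exact this
  have h3 : ∀ (u : List Γ) (P : Set Q),
      image (fun q' a => ι (δ (π q') a)) (ι '' P) u = ι '' (image δ P u) := by
    intro u P
    simp only [image, Set.image_image, h2]
  have hinj : Function.Injective ι := fun x y h => by rw [← hπ x, ← hπ y, h]
  induction N with
  | zero => intro P'; exact Iff.rfl
  | succ N ih =>
    intro P'
    constructor
    · rintro ⟨a, ha⟩
      refine ⟨a, ?_⟩
      rcases ha with ⟨q, hq⟩ | ha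
      · left
        rw [h1] at hq
        refine ⟨π q, ?_⟩
        have := congrArg (fun S => π '' S) hq
        simpa [Set.image_image, hπ] using this
      · right
        intro u hu
        have := ha u hu
        rw [h1, h3, ih] at this
        simpa [Set.image_image, hπ] using this
    · rintro ⟨a, ha⟩
      refine ⟨a, ?_⟩
      rcases ha with ⟨q, hq⟩ | ha
      · left
        refine ⟨ι q, ?_⟩
        rw [h1, hq]; simp
      · right
        intro u hu
        rw [h1, h3, ih]
        simpa [Set.image_image, hπ] using ha u hu

/-! ### The automaton -/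

section Construction

variable (x R K : ℕ)

/-- The two counters; each of them has the `R + 1` positions `0, …, R`. -/
abbrev Mark (R : ℕ) : Type := Fin (R + 1) ⊕ Fin (R + 1)

/-- The states of level `0`: `x` waiting places and the positions of the two counters. -/
abbrev Base (x R : ℕ) : Type := Fin x ⊕ Mark R

/-- All states: the states of level `0` and, for `1 ≤ ℓ ≤ K + 1`, the states of level `ℓ`
(represented by the element `ℓ - 1` of `Fin (K + 1)`), which are marked counter positions or
unmarked copies of the states of level `0`. -/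
abbrev State (x R K : ℕ) : Type := Base x R ⊕ (Fin (K + 1) × (Mark R ⊕ Base x R))

/-- The letters: `home`, `target p q` and `shuffle f`. -/
abbrev Letter (x R : ℕ) : Type := Unit ⊕ ((Base x R × Base x R) ⊕ (Fin x × Fin x))

variable {x R K}

/-- Where the two targeted tokens are sent by the letter `target p q`. -/
def nxt : Base x R → Base x R → Mark R × Mark R
  | Sum.inr (Sum.inl i), Sum.inr (Sum.inr j) =>
      if j.val ≠ 0 then (Sum.inl i, Sum.inr ⟨j.val - 1, by omega⟩)
      else if i.val ≠ 0 then (Sum.inl ⟨i.val - 1, by omega⟩, Sum.inr (Fin.last R))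
      else (Sum.inl i, Sum.inl i)
  | _, _ => (Sum.inl (Fin.last R), Sum.inr (Fin.last R))

/-- The value of an ordered pair of states of level `0`. -/
def val : Base x R → Base x R → ℕ
  | Sum.inr (Sum.inl i), Sum.inr (Sum.inr j) => i.val * (R + 1) + j.val + 1
  | _, _ => (R + 1) * (R + 1) + 1

/-- The action of `target p q` on the states of level `0`. -/
def tgt (p q b : Base x R) : Mark R ⊕ Base x R :=
  if b = p then Sum.inl (nxt p q).1 else if b = q then Sum.inl (nxt p q).2 else Sum.inr b

/-- Waiting places for the unmarked copies of the states of level `0`. -/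
def place (f : Fin x × Fin x) : Base x R → Fin x
  | Sum.inl a => a
  | Sum.inr (Sum.inl _) => f.1
  | Sum.inr (Sum.inr _) => f.2

/-- The action of a letter `shuffle f` (with `h = place f`) from level `1` to level `0`. -/
def land (h : Base x R → Fin x) : Mark R ⊕ Base x R → Base x R
  | Sum.inl s => Sum.inr s
  | Sum.inr b => Sum.inl (h b)

/-- The transition map. -/
def step : State x R K → Letter x R → State x R K
  | Sum.inl b, Sum.inl _ => Sum.inl b
  | Sum.inl b, Sum.inr (Sum.inl (p, q)) => Sum.inr (Fin.last K, tgt p q b)
  | Sum.inl b, Sum.inr (Sum.inr _) => Sum.inr (Fin.last K, Sum.inr b)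
  | Sum.inr _, Sum.inl _ => Sum.inl (Sum.inr (Sum.inl 0))
  | Sum.inr _, Sum.inr (Sum.inl _) => Sum.inl (Sum.inr (Sum.inl 0))
  | Sum.inr (i, c), Sum.inr (Sum.inr f) =>
      if i.val = 0 then Sum.inl (land (place f) c) else Sum.inr (⟨i.val - 1, by omega⟩, c)

/-! ### Images of sets of states -/

theorem image_cons (δ : Q → Γ → Q) (P : Set Q) (a : Γ) (u : List Γ) :
    image δ P (a :: u) = image δ (image δ P [a]) u := by
  rw [image_image]; rfl

theorem image_subsingleton {δ : Q → Γ → Q} {P : Set Q} (h : P.Subsingleton) (u : List Γ) :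
    (image δ P u).Subsingleton := h.image _

theorem image_home_zero (T : Set (Base x R)) :
    image (step (K := K)) (Sum.inl '' T) [Sum.inl ()] = Sum.inl '' T := by
  simp [image, run, step, Set.image_image]

theorem image_target_zero (T : Set (Base x R)) (p q : Base x R) :
    image (step (K := K)) (Sum.inl '' T) [Sum.inr (Sum.inl (p, q))] =
      (fun c => Sum.inr (Fin.last K, c)) '' (tgt p q '' T) := by
  simp [image, run, step, Set.image_image]

theorem image_shuffle_zero (T : Set (Base x R)) (h : Fin x × Fin x) :
    image (step (K := K)) (Sum.inl '' T) [Sum.inr (Sum.inr h)] =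
      (fun c => Sum.inr (Fin.last K, c)) '' (Sum.inr '' T) := by
  simp [image, run, step, Set.image_image]

theorem image_shuffle_level (i : Fin (K + 1)) (hi : i.val ≠ 0) (C : Set (Mark R ⊕ Base x R))
    (h : Fin x × Fin x) :
    image (step (K := K)) ((fun c => Sum.inr (i, c)) '' C) [Sum.inr (Sum.inr h)] =
      (fun c => Sum.inr (⟨i.val - 1, by omega⟩, c)) '' C := by
  have hi' : i ≠ 0 := fun h => hi (by rw [h]; rfl)
  simp [image, run, step, Set.image_image, hi']

theorem image_shuffle_last (i : Fin (K + 1)) (hi : i.val = 0) (C : Set (Mark R ⊕ Base x R))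
    (h : Fin x × Fin x) :
    image (step (K := K)) ((fun c => Sum.inr (i, c)) '' C) [Sum.inr (Sum.inr h)] =
      Sum.inl '' (land (place h) '' C) := by
  have hi' : i = 0 := Fin.ext hi
  simp [image, run, step, Set.image_image, hi']

/-- What a word can do to a set of states of one positive level. -/
theorem level_cases (u : List (Letter x R)) : ∀ (i : Fin (K + 1)) (C : Set (Mark R ⊕ Base x R)),
    u.length ≤ i.val + 1 →
    (image (step (K := K)) ((fun c => Sum.inr (i, c)) '' C) u).Subsingleton ∨
    image (step (K := K)) ((fun c => Sum.inr (i, c)) '' C) u ⊆ Set.range Sum.inr ∨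
    (u.length = i.val + 1 ∧ ∃ h : Base x R → Fin x,
      image (step (K := K)) ((fun c => Sum.inr (i, c)) '' C) u = Sum.inl '' (land h '' C)) := by
  induction u with
  | nil =>
    intro i C _
    right; left
    rw [image_nil]
    rintro _ ⟨c, _, rfl⟩
    exact ⟨_, rfl⟩
  | cons a u ih =>
    intro i C hu
    have hsub : ∀ a : Letter x R, (∀ s, step (Sum.inr s : State x R K) a =
        Sum.inl (Sum.inr (Sum.inl 0))) →
        (image (step (K := K)) ((fun c => Sum.inr (i, c)) '' C) [a]).Subsingleton := by
      intro a ha
      rintro _ ⟨_, ⟨c, _, rfl⟩, rfl⟩ _ ⟨_, ⟨c', _, rfl⟩, rfl⟩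
      simp only [run, List.foldl_cons, List.foldl_nil, ha]
    rw [image_cons]
    rcases a with _ | ⟨_ | h⟩
    · left
      exact image_subsingleton (hsub _ (fun _ => rfl)) u
    · left
      exact image_subsingleton (hsub _ (fun _ => rfl)) u
    · simp only [List.length_cons] at hu
      by_cases hi : i.val = 0
      · have hu0 : u = [] := List.length_eq_zero_iff.mp (by omega)
        subst hu0
        right; right
        refine ⟨by simp [hi], place h, ?_⟩
        rw [image_shuffle_last i hi, image_nil]
      · rw [image_shuffle_level i hi]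
        rcases ih ⟨i.val - 1, by omega⟩ C (by simp; omega) with h1 | h1 | ⟨h1, h2, h3⟩
        · exact Or.inl h1
        · exact Or.inr (Or.inl h1)
        · right; right
          refine ⟨by simp at h1 ⊢; omega, h2, h3⟩

/-- What a word of length at most `K + 1` can do to a set of states of level `0`. -/
theorem zero_cases (u : List (Letter x R)) : ∀ (T : Set (Base x R)), u.length ≤ K + 1 →
    (image (step (K := K)) (Sum.inl '' T) u).Subsingleton ∨
    image (step (K := K)) (Sum.inl '' T) u ⊆ Set.range Sum.inr ∨
    image (step (K := K)) (Sum.inl '' T) u = Sum.inl '' T := by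
  induction u with
  | nil =>
    intro T _
    right; right
    rw [image_nil]
  | cons a u ih =>
    intro T hu
    simp only [List.length_cons] at hu
    rw [image_cons]
    rcases a with _ | ⟨⟨p, q⟩ | h⟩
    · rw [image_home_zero]
      exact ih T (by omega)
    · rw [image_target_zero]
      rcases level_cases (K := K) u (Fin.last K) (tgt p q '' T) (by simp; omega) with
        h1 | h1 | ⟨h1, _⟩
      · exact Or.inl h1
      · exact Or.inr (Or.inl h1)
      · simp at h1; omega
    · rw [image_shuffle_zero]
      rcases level_cases (K := K) u (Fin.last K) (Sum.inr '' T) (by simp; omega) with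
        h1 | h1 | ⟨h1, _⟩
      · exact Or.inl h1
      · exact Or.inr (Or.inl h1)
      · simp at h1; omega

/-! ### Alice wins from every pair -/

theorem wins_of_subsingleton {k : ℕ} {δ : Q → Γ → Q} [Nonempty Γ] {P : Set Q} (hn : P.Nonempty)
    (h : P.Subsingleton) : Wins k δ 1 P := by
  obtain ⟨q, hq⟩ := hn
  obtain ⟨a⟩ := ‹Nonempty Γ›
  refine ⟨a, Or.inl ⟨run δ q [a], ?_⟩⟩
  rw [h.eq_singleton_of_mem hq]
  simp [image]

theorem wins_of_range_inr {k : ℕ} {P : Set (State x R K)} (hn : P.Nonempty)
    (h : P ⊆ Set.range Sum.inr) : Wins k (step (K := K)) 1 P := by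
  refine ⟨Sum.inl (), Or.inl ⟨Sum.inl (Sum.inr (Sum.inl 0)), ?_⟩⟩
  apply (Set.subset_singleton_iff_eq.mp ?_).resolve_left (image_nonempty _ hn _).ne_empty
  rintro _ ⟨q, hq, rfl⟩
  obtain ⟨c, rfl⟩ := h hq
  simp [run, step]

theorem val_nxt (p q : Base x R) : (nxt p q).1 = (nxt p q).2 ∨
    val (x := x) (Sum.inr (nxt p q).1) (Sum.inr (nxt p q).2) < val p q := by
  rcases p with p | i | p <;> rcases q with q | q | j
  all_goals try (right; simp [nxt, val]; nlinarith [Nat.zero_le R])
  by_cases hj : j.val = 0
  · by_cases hi : i.val = 0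
    · left
      simp [nxt, hi, hj]
    · right
      have : ∃ i', i.val = i' + 1 := ⟨i.val - 1, by omega⟩
      obtain ⟨i', hi'⟩ := this
      simp [nxt, val, hi', hj]
      nlinarith
  · right
    have : ∃ j', j.val = j' + 1 := ⟨j.val - 1, by omega⟩
    obtain ⟨j', hj'⟩ := this
    simp [nxt, val, hj']

theorem wins_pair_zero (M : ℕ) : ∀ p q : Base x R, (p = q ∨ val p q ≤ M) →
    Wins (K + 1) (step (K := K)) (M + 1) {Sum.inl p, Sum.inl q} := by
  induction M with
  | zero =>
    intro p q h
    rcases h with rfl | h
    · exact wins_of_subsingleton (by simp) (by simp)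
    · exfalso
      have : 0 < val p q := by
        rcases p with p | i | p <;> rcases q with q | q | j <;> simp [val]
      omega
  | succ M ih =>
    intro p q h
    by_cases hpq : p = q
    · subst hpq
      exact (wins_of_subsingleton (by simp) (by simp)).mono (by omega)
    · replace h := h.resolve_left hpq
      refine ⟨Sum.inr (Sum.inl (p, q)), Or.inr fun u hu => ?_⟩
      have hpair : ({Sum.inl p, Sum.inl q} : Set (State x R K)) = Sum.inl '' {p, q} := by
        simp [Set.image_pair]
      have himg : tgt p q '' {p, q} = {Sum.inl (nxt p q).1, Sum.inl (nxt p q).2} := by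
        simp [Set.image_pair, tgt, Ne.symm hpq]
      rw [hpair, image_target_zero, himg]
      have hne : (image (step (K := K)) ((fun c => (Sum.inr (Fin.last K, c) : State x R K)) ''
          {Sum.inl (nxt p q).1, Sum.inl (nxt p q).2}) u).Nonempty :=
        image_nonempty _ (by simp) _
      rcases level_cases (K := K) u (Fin.last K) {Sum.inl (nxt p q).1, Sum.inl (nxt p q).2}
        (by simpa using hu) with h1 | h1 | ⟨_, h2, h3⟩
      · exact (wins_of_subsingleton hne h1).mono (by omega)
      · exact (wins_of_range_inr hne h1).mono (by omega)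
      · rw [h3]
        have : (Sum.inl '' (land h2 '' {Sum.inl (nxt p q).1, Sum.inl (nxt p q).2}) :
            Set (State x R K)) = {Sum.inl (Sum.inr (nxt p q).1), Sum.inl (Sum.inr (nxt p q).2)} := by
          simp [Set.image_pair, land]
        rw [this]
        apply ih
        rcases val_nxt p q with h4 | h4
        · left; rw [h4]
        · right; omega

theorem val_le (p q : Base x R) : val p q ≤ (R + 1) * (R + 1) + 1 := by
  rcases p with p | i | p <;> rcases q with q | q | j <;> simp [val]
  have hi := i.isLt
  have hj := j.isLt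
  nlinarith

theorem wins_mixed (p : Base x R) (c : Fin (K + 1) × (Mark R ⊕ Base x R)) :
    Wins (K + 1) (step (K := K)) ((R + 1) * (R + 1) + 3) {Sum.inl p, Sum.inr c} := by
  refine ⟨Sum.inl (), Or.inr fun u hu => ?_⟩
  have h0 : image (step (K := K)) {Sum.inl p, Sum.inr c} [Sum.inl ()] =
      Sum.inl '' {p, Sum.inr (Sum.inl 0)} := by
    simp [image, run, step, Set.image_pair]
  rw [h0]
  have hne : (image (step (K := K)) (Sum.inl '' {p, Sum.inr (Sum.inl 0)} :
      Set (State x R K)) u).Nonempty :=
    image_nonempty _ (by simp) _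
  rcases zero_cases (K := K) u {p, Sum.inr (Sum.inl 0)} hu with h1 | h1 | h1
  · exact (wins_of_subsingleton hne h1).mono (by omega)
  · exact (wins_of_range_inr hne h1).mono (by omega)
  · rw [h1, Set.image_pair]
    exact wins_pair_zero _ _ _ (Or.inr (val_le _ _))

theorem wins_pair (p q : State x R K) :
    Wins (K + 1) (step (K := K)) ((R + 1) * (R + 1) + 3) {p, q} := by
  rcases p with p | p <;> rcases q with q | q
  · exact (wins_pair_zero _ _ _ (Or.inr (val_le _ _))).mono (by omega)
  · exact wins_mixed _ _
  · rw [Set.pair_comm]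
    exact wins_mixed _ _
  · refine (wins_of_range_inr (by simp) ?_).mono (by omega)
    rintro _ (rfl | rfl) <;> exact ⟨_, rfl⟩

/-! ### Bob can resist -/

theorem image_replicate (h : Fin x × Fin x) (m : ℕ) : ∀ (i : Fin (K + 1)) (_ : i.val = m)
    (C : Set (Mark R ⊕ Base x R)),
    image (step (K := K)) ((fun c => Sum.inr (i, c)) '' C)
      (List.replicate (m + 1) (Sum.inr (Sum.inr h))) = Sum.inl '' (land (place h) '' C) := by
  induction m with
  | zero =>
    intro i hi C
    simp only [zero_add, List.replicate_one]
    exact image_shuffle_last i hi C h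
  | succ m ih =>
    intro i hi C
    rw [List.replicate_succ, image_cons, image_shuffle_level i (by omega)]
    exact ih ⟨i.val - 1, by omega⟩ (by simp; omega) C

theorem image_answer (h : Fin x × Fin x) (C : Set (Mark R ⊕ Base x R)) :
    image (step (K := K)) ((fun c => Sum.inr (Fin.last K, c)) '' C)
      (List.replicate (K + 1) (Sum.inr (Sum.inr h))) = Sum.inl '' (land (place h) '' C) :=
  image_replicate h K (Fin.last K) rfl C

/-- At most one token is on a counter position. -/
def Low (T : Finset (Base x R)) : Prop :=
  ∀ s s', Sum.inr s ∈ T → Sum.inr s' ∈ T → s = s'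

/-- Exactly the counter positions `i` of the first and `j` of the second counter are occupied. -/
def High (T : Finset (Base x R)) (i j : Fin (R + 1)) : Prop :=
  Sum.inr (Sum.inl i) ∈ T ∧ Sum.inr (Sum.inr j) ∈ T ∧
    ∀ s, Sum.inr s ∈ T → s = Sum.inl i ∨ s = Sum.inr j

theorem exists_injOn (T : Finset (Base x R)) (hT : T.card ≤ x) (hn : T.Nonempty)
    (hLH : Low T ∨ ∃ i j, High T i j) :
    ∃ f : Fin x × Fin x, Set.InjOn (place (R := R) f) T := by
  have hx : 0 < x := lt_of_lt_of_le hn.card_pos hT
  set A : Finset (Fin x) := Finset.univ.filter (fun a => Sum.inl a ∈ T) with hA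
  have hmem : ∀ a : Fin x, a ∈ A ↔ Sum.inl a ∈ T := by intro a; simp [hA]
  have hAimg : A.image Sum.inl ⊆ T := by
    intro b hb
    rw [Finset.mem_image] at hb
    obtain ⟨a, ha, rfl⟩ := hb
    exact (hmem a).mp ha
  have hAcard : (A.image (Sum.inl : Fin x → Base x R)).card = A.card :=
    Finset.card_image_of_injective _ Sum.inl_injective
  rcases hLH with hL | ⟨i, j, hH⟩
  · by_cases hy : ∃ s, Sum.inr s ∈ T
    · obtain ⟨s, hs⟩ := hy
      have hlt : A.card < x := by
        have : A.image Sum.inl ⊆ T.erase (Sum.inr s) := by
          intro b hb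
          refine Finset.mem_erase.mpr ⟨?_, hAimg hb⟩
          rintro rfl
          simp at hb
        have := Finset.card_le_card this
        rw [hAcard, Finset.card_erase_of_mem hs] at this
        have := hn.card_pos
        omega
      obtain ⟨a, ha⟩ : ∃ a, a ∉ A := by
        by_contra hcon
        push Not at hcon
        have : A = Finset.univ := Finset.eq_univ_iff_forall.mpr hcon
        rw [this] at hlt
        simp at hlt
      refine ⟨(a, a), ?_⟩
      intro b hb b' hb' hbb
      have hb1 : b ∈ T := hb
      have hb2 : b' ∈ T := hb'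
      rcases b with b | b | b <;> rcases b' with b' | b' | b' <;> simp only [place] at hbb
      · rw [hbb]
      · exact absurd ((hmem _).mpr (hbb ▸ hb1)) ha
      · exact absurd ((hmem _).mpr (hbb ▸ hb1)) ha
      · exact absurd ((hmem _).mpr (hbb ▸ hb2)) ha
      all_goals try exact congrArg _ (hL _ _ hb1 hb2)
      exact absurd ((hmem _).mpr (hbb ▸ hb2)) ha
    · refine ⟨(⟨0, hx⟩, ⟨0, hx⟩), ?_⟩
      push Not at hy
      intro b hb b' hb' hbb
      have hb1 : b ∈ T := hb
      have hb2 : b' ∈ T := hb'
      rcases b with b | b
      · rcases b' with b' | b'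
        · simp only [place] at hbb
          rw [hbb]
        · exact absurd hb2 (hy _)
      · exact absurd hb1 (hy _)
  · have hlt : A.card + 2 ≤ x := by
      have : A.image Sum.inl ⊆ (T.erase (Sum.inr (Sum.inl i))).erase (Sum.inr (Sum.inr j)) := by
        intro b hb
        refine Finset.mem_erase.mpr ⟨?_, Finset.mem_erase.mpr ⟨?_, hAimg hb⟩⟩
        · rintro rfl
          simp at hb
        · rintro rfl
          simp at hb
      have := Finset.card_le_card this
      rw [hAcard, Finset.card_erase_of_mem (Finset.mem_erase.mpr ⟨by simp, hH.2.1⟩),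
        Finset.card_erase_of_mem hH.1] at this
      have := Finset.one_lt_card.mpr ⟨_, hH.1, _, hH.2.1, by simp⟩
      omega
    have hc : 1 < (Aᶜ).card := by
      rw [Finset.card_compl, Fintype.card_fin]
      omega
    obtain ⟨a, ha, a', ha', haa⟩ := Finset.one_lt_card.mp hc
    rw [Finset.mem_compl] at ha ha'
    refine ⟨(a, a'), ?_⟩
    intro b hb b' hb' hbb
    have hb1 : b ∈ T := hb
    have hb2 : b' ∈ T := hb'
    rcases b with b | b | b <;> rcases b' with b' | b' | b' <;> simp only [place] at hbb
    · rw [hbb]
    · exact absurd ((hmem _).mpr (hbb ▸ hb1)) ha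
    · exact absurd ((hmem _).mpr (hbb ▸ hb1)) ha'
    · exact absurd ((hmem _).mpr (hbb ▸ hb2)) ha
    · have e1 := hH.2.2 _ hb1
      have e2 := hH.2.2 _ hb2
      simp at e1 e2
      rw [e1, e2]
    · exact absurd hbb haa
    · exact absurd ((hmem _).mpr (hbb ▸ hb2)) ha'
    · exact absurd hbb.symm haa
    · have e1 := hH.2.2 _ hb1
      have e2 := hH.2.2 _ hb2
      simp at e1 e2
      rw [e1, e2]

theorem move_injOn {p q : Base x R} {h : Base x R → Fin x} {T : Finset (Base x R)}
    (hh : Set.InjOn h T) (hpq : p ∈ T → q ∈ T → p = q ∨ (nxt p q).1 ≠ (nxt p q).2) :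
    Set.InjOn (fun b => land h (tgt p q b)) T := by
  intro b hb b' hb' hbb
  have hb1 : b ∈ T := hb
  have hb2 : b' ∈ T := hb'
  simp only [tgt] at hbb
  by_cases h1 : b = p <;> by_cases h2 : b' = p
  · rw [h1, h2]
  · by_cases h3 : b' = q
    · exfalso
      subst h1 h3
      simp [h2, land] at hbb
      rcases hpq hb1 hb2 with h4 | h4
      · exact h2 h4.symm
      · exact h4 hbb
    · simp [h1, h2, h3, land] at hbb
  · by_cases h3 : b = q
    · exfalso
      subst h2 h3
      simp [h1, land] at hbb
      rcases hpq hb2 hb1 with h4 | h4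
      · exact h1 h4.symm
      · exact h4 hbb.symm
    · simp [h1, h2, h3, land] at hbb
  · by_cases h3 : b = q <;> by_cases h4 : b' = q
    · rw [h3, h4]
    · simp [h2, h3, h4, land] at hbb
      by_cases h5 : q = p
      · exact absurd (h3.trans h5) h1
      · simp [h5] at hbb
    · simp [h1, h3, h4, land] at hbb
      by_cases h5 : q = p
      · exact absurd (h4.trans h5) h2
      · simp [h5] at hbb
    · simp [h1, h2, h3, h4, land] at hbb
      exact hh hb hb' hbb

theorem or_of_or {k N : ℕ} {P : Set (State x R K)} {a : Letter x R}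
    (h : (∃ q, image (step (K := K)) P [a] = {q}) ∨
      ∀ u : List (Letter x R), u.length ≤ k →
        Wins k (step (K := K)) N (image step (image step P [a]) u))
    (u : List (Letter x R)) (hu : u.length ≤ k) (T : Finset (Base x R))
    (hT : image (step (K := K)) (image step P [a]) u = Sum.inl '' (T : Set (Base x R))) :
    T.card ≤ 1 ∨ Wins k (step (K := K)) N (Sum.inl '' (T : Set (Base x R))) := by
  rcases h with ⟨q, hq⟩ | h
  · left
    have h1 : (Sum.inl '' (T : Set (Base x R)) : Set (State x R K)).Subsingleton := by
      rw [← hT, hq]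
      exact image_subsingleton Set.subsingleton_singleton u
    have h2 : (T : Set (Base x R)).Subsingleton :=
      Set.subsingleton_of_image Sum.inl_injective _ h1
    exact Finset.card_le_one.mpr fun a ha b hb => h2 ha hb
  · right
    rw [← hT]
    exact h u hu

theorem nxt_spec (p q : Base x R) :
    (∃ i j : Fin (R + 1), p = Sum.inr (Sum.inl i) ∧ q = Sum.inr (Sum.inr j) ∧
      (((nxt p q).1 = (nxt p q).2 ∧ i.val = 0 ∧ j.val = 0) ∨
      ∃ i' j' : Fin (R + 1), nxt p q = (Sum.inl i', Sum.inr j') ∧
        i'.val * (R + 1) + j'.val + 1 = i.val * (R + 1) + j.val)) ∨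
    ∃ i' j' : Fin (R + 1), nxt p q = (Sum.inl i', Sum.inr j') ∧
        i'.val * (R + 1) + j'.val + 1 = (R + 1) * (R + 1) := by
  rcases p with p | i | p <;> rcases q with q | q | j
  all_goals try (right; exact ⟨Fin.last R, Fin.last R, rfl, by simp; ring⟩)
  left
  refine ⟨i, j, rfl, rfl, ?_⟩
  by_cases hj : j.val = 0
  · by_cases hi : i.val = 0
    · left
      simp [nxt, hi, hj]
    · right
      have : ∃ i', i.val = i' + 1 := ⟨i.val - 1, by omega⟩
      obtain ⟨i', hi'⟩ := this
      refine ⟨⟨i', by omega⟩, Fin.last R, by simp [nxt, hi', hj], ?_⟩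
      simp [hi', hj]
      ring
  · right
    have : ∃ j', j.val = j' + 1 := ⟨j.val - 1, by omega⟩
    obtain ⟨j', hj'⟩ := this
    refine ⟨i, ⟨j', by omega⟩, by simp [nxt, hj'], ?_⟩
    simp [hj']
    ring

theorem mark_lt (i j : Fin (R + 1)) : i.val * (R + 1) + j.val + 1 ≤ (R + 1) * (R + 1) := by
  have hi := i.isLt
  have hj := j.isLt
  nlinarith

theorem arith_aux {c W t N : ℕ} (hc : 2 ≤ c) (ht : t ≤ W) (h : (c - 1) * W ≤ N) :
    (c - 2) * W + t ≤ N := by
  obtain ⟨c, rfl⟩ := Nat.exists_eq_add_of_le hc
  have h1 : 2 + c - 1 = c + 1 := by omega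
  have h2 : 2 + c - 2 = c := by omega
  rw [h1] at h
  rw [h2]
  nlinarith

theorem High.two_le {T : Finset (Base x R)} {i j : Fin (R + 1)} (h : High T i j) :
    2 ≤ T.card := by
  have : 1 < T.card := Finset.one_lt_card.mpr ⟨_, h.1, _, h.2.1, by simp⟩
  omega

/-- The lower bound: Bob can hold out for long. -/
theorem lower (N : ℕ) : ∀ T : Finset (Base x R), T.card ≤ x → T.Nonempty →
    (T.card ≤ 1 ∨ Wins (K + 1) (step (K := K)) N (Sum.inl '' (T : Set (Base x R)))) →
    (Low T → (T.card - 1) * ((R + 1) * (R + 1) + 1) ≤ N) ∧
    (∀ i j : Fin (R + 1), High T i j →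
      (T.card - 2) * ((R + 1) * (R + 1) + 1) + (i.val * (R + 1) + j.val + 1) ≤ N) := by
  induction N with
  | zero =>
    intro T hT hn h
    have hc : T.card ≤ 1 := h.resolve_right (fun h => h)
    have hc0 : T.card - 1 = 0 := by omega
    refine ⟨fun _ => by simp [hc0], fun i j hH => absurd hH.two_le (by omega)⟩
  | succ N ih =>
    intro T hT hn h
    rcases h with hc | ⟨a, ha⟩
    · have hc0 : T.card - 1 = 0 := by omega
      refine ⟨fun _ => by simp [hc0], fun i j hH => absurd hH.two_le (by omega)⟩
    by_cases hLH : Low T ∨ ∃ i j, High T i j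
    swap
    · exact ⟨fun h => absurd (Or.inl h) hLH, fun i j h => absurd (Or.inr ⟨i, j, h⟩) hLH⟩
    rcases a with _ | ⟨⟨p, q⟩ | h'⟩
    · -- the letter `home`
      have h1 := or_of_or ha [] (by simp) T (by rw [image_nil]; exact image_home_zero _)
      obtain ⟨h2, h3⟩ := ih T hT hn h1
      exact ⟨fun hL => (h2 hL).trans (by omega), fun i j hH => (h3 i j hH).trans (by omega)⟩
    · -- the letter `target p q`
      obtain ⟨g, hg⟩ := exists_injOn T hT hn hLH
      set mv : Base x R → Base x R := fun b => land (place g) (tgt p q b) with hmv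
      have himg : ∀ S : Finset (Base x R),
          ((S.image mv : Finset (Base x R)) : Set (Base x R)) =
            land (place g) '' (tgt p q '' S) := by
        intro S
        rw [Finset.coe_image, Set.image_image]
      have h1 := or_of_or ha (List.replicate (K + 1) (Sum.inr (Sum.inr g))) (by simp)
        (T.image mv) (by rw [image_target_zero, image_answer, himg])
      have hmvp : mv p = Sum.inr (nxt p q).1 := by simp [hmv, tgt, land]
      have hmvq : p ≠ q → mv q = Sum.inr (nxt p q).2 := by
        intro h
        simp [hmv, tgt, land, Ne.symm h]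
      have hmvo : ∀ b s, mv b = Sum.inr s → b = p ∨ b = q := by
        intro b s hb
        by_contra hcon
        push Not at hcon
        simp [hmv, tgt, land, hcon.1, hcon.2] at hb
      by_cases hboth : p ∈ T ∧ q ∈ T ∧ p ≠ q
      · obtain ⟨hp, hq, hpq⟩ := hboth
        rcases nxt_spec p q with ⟨i0, j0, hpi, hqj, ⟨hm, hi0, hj0⟩ | ⟨i', j', hij, hval⟩⟩ |
          ⟨i', j', hij, hval⟩
        · -- the two tokens are merged
          have hsub : (T.erase q).image mv ⊆ T.image mv :=
            Finset.image_subset_image (Finset.erase_subset _ _)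
          have hne : (T.erase q).Nonempty := ⟨p, Finset.mem_erase.mpr ⟨hpq, hp⟩⟩
          have hinj : Set.InjOn mv (T.erase q : Finset (Base x R)) := by
            apply move_injOn (hg.mono (by simp))
            intro _ hq'
            exact absurd hq' (by simp)
          have hcard : ((T.erase q).image mv).card = T.card - 1 := by
            rw [Finset.card_image_of_injOn hinj, Finset.card_erase_of_mem hq]
          have h2 : ((T.erase q).image mv).card ≤ 1 ∨ Wins (K + 1) (step (K := K)) N
              (Sum.inl '' (((T.erase q).image mv : Finset (Base x R)) : Set (Base x R))) := by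
            rcases h1 with h1 | h1
            · exact Or.inl ((Finset.card_le_card hsub).trans h1)
            · right
              refine h1.mono_set (Set.image_mono (by exact_mod_cast hsub)) ?_
              exact (by exact_mod_cast hne.image mv :
                (((T.erase q).image mv : Finset (Base x R)) : Set (Base x R)).Nonempty).image _
          obtain ⟨h3, -⟩ := ih _ (by omega) (hne.image _) h2
          have hlow : Low ((T.erase q).image mv) := by
            intro s s' hs hs'
            rw [Finset.mem_image] at hs hs'
            obtain ⟨b, hb, hbs⟩ := hs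
            obtain ⟨b', hb', hbs'⟩ := hs'
            have e1 : b = p := (hmvo b s hbs).resolve_right (Finset.mem_erase.mp hb).1
            have e2 : b' = p := (hmvo b' s' hbs').resolve_right (Finset.mem_erase.mp hb').1
            rw [e1] at hbs
            rw [e2, hbs] at hbs'
            exact Sum.inr_injective hbs'
          have h4 := h3 hlow
          rw [hcard] at h4
          refine ⟨fun hL => ?_, fun i j hH => ?_⟩
          · exfalso
            have := hL _ _ (hpi ▸ hp) (hqj ▸ hq)
            simp at this
          · have e1 : i0 = i := by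
              have := hH.2.2 _ (hpi ▸ hp)
              simpa using this
            have e2 : j0 = j := by
              have := hH.2.2 _ (hqj ▸ hq)
              simpa using this
            have : T.card - 1 - 1 = T.card - 2 := by omega
            rw [this] at h4
            rw [← e1, ← e2, hi0, hj0]
            omega
        · -- the counter is decreased by one
          have hinj : Set.InjOn mv (T : Set (Base x R)) := by
            apply move_injOn hg
            intro _ _
            right
            rw [hij]
            simp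
          have hcard : (T.image mv).card = T.card := Finset.card_image_of_injOn hinj
          obtain ⟨-, h3⟩ := ih _ (by omega) (hn.image _) h1
          have hhigh : High (T.image mv) i' j' := by
            refine ⟨?_, ?_, ?_⟩
            · rw [Finset.mem_image]
              exact ⟨p, hp, by rw [hmvp, hij]⟩
            · rw [Finset.mem_image]
              exact ⟨q, hq, by rw [hmvq hpq, hij]⟩
            · intro s hs
              rw [Finset.mem_image] at hs
              obtain ⟨b, hb, hbs⟩ := hs
              rcases hmvo b s hbs with rfl | rfl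
              · left
                rw [hmvp, hij] at hbs
                exact (Sum.inr_injective hbs).symm
              · right
                rw [hmvq hpq, hij] at hbs
                exact (Sum.inr_injective hbs).symm
          have h4 := h3 i' j' hhigh
          rw [hcard] at h4
          refine ⟨fun hL => ?_, fun i j hH => ?_⟩
          · exfalso
            have := hL _ _ (hpi ▸ hp) (hqj ▸ hq)
            simp at this
          · have e1 : i0 = i := by
              have := hH.2.2 _ (hpi ▸ hp)
              simpa using this
            have e2 : j0 = j := by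
              have := hH.2.2 _ (hqj ▸ hq)
              simpa using this
            rw [← e1, ← e2]
            omega
        · -- the counter is started
          have hinj : Set.InjOn mv (T : Set (Base x R)) := by
            apply move_injOn hg
            intro _ _
            right
            rw [hij]
            simp
          have hcard : (T.image mv).card = T.card := Finset.card_image_of_injOn hinj
          obtain ⟨-, h3⟩ := ih _ (by omega) (hn.image _) h1
          have hhigh : High (T.image mv) i' j' := by
            refine ⟨?_, ?_, ?_⟩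
            · rw [Finset.mem_image]
              exact ⟨p, hp, by rw [hmvp, hij]⟩
            · rw [Finset.mem_image]
              exact ⟨q, hq, by rw [hmvq hpq, hij]⟩
            · intro s hs
              rw [Finset.mem_image] at hs
              obtain ⟨b, hb, hbs⟩ := hs
              rcases hmvo b s hbs with rfl | rfl
              · left
                rw [hmvp, hij] at hbs
                exact (Sum.inr_injective hbs).symm
              · right
                rw [hmvq hpq, hij] at hbs
                exact (Sum.inr_injective hbs).symm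
          have h4 := h3 i' j' hhigh
          rw [hcard] at h4
          have h2c : 2 ≤ T.card := by
            have : 1 < T.card := Finset.one_lt_card.mpr ⟨_, hp, _, hq, hpq⟩
            omega
          obtain ⟨c, hc⟩ := Nat.exists_eq_add_of_le h2c
          refine ⟨fun hL => ?_, fun i j hH => ?_⟩
          · rw [hc] at h4 ⊢
            have e1 : 2 + c - 2 = c := by omega
            have e2 : 2 + c - 1 = c + 1 := by omega
            rw [e1] at h4
            rw [e2]
            nlinarith
          · have := mark_lt i j
            omega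
      · -- at most one targeted token
        have hinj : Set.InjOn mv (T : Set (Base x R)) := by
          apply move_injOn hg
          intro hp hq
          left
          by_contra hpq
          exact hboth ⟨hp, hq, hpq⟩
        have hcard : (T.image mv).card = T.card := Finset.card_image_of_injOn hinj
        have hlow : Low (T.image mv) := by
          intro s s' hs hs'
          rw [Finset.mem_image] at hs hs'
          obtain ⟨b, hb, hbs⟩ := hs
          obtain ⟨b', hb', hbs'⟩ := hs'
          have e : b = b' := by
            rcases hmvo b s hbs with rfl | rfl <;> rcases hmvo b' s' hbs' with rfl | rfl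
            · rfl
            · by_contra hne
              exact hboth ⟨hb, hb', hne⟩
            · by_contra hne
              exact hboth ⟨hb', hb, Ne.symm hne⟩
            · rfl
          rw [e, hbs'] at hbs
          exact (Sum.inr_injective hbs).symm
        obtain ⟨h3, -⟩ := ih _ (by omega) (hn.image _) h1
        have h4 := h3 hlow
        rw [hcard] at h4
        refine ⟨fun _ => by omega, fun i j hH => ?_⟩
        have hm := mark_lt i j
        have := arith_aux (t := i.val * (R + 1) + j.val + 1) hH.two_le (by omega) h4
        omega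
    · -- a letter `shuffle`
      obtain ⟨f, hg⟩ := exists_injOn T hT hn hLH
      set g : Base x R → Fin x := place f with hgdef
      have hinj : Set.InjOn (fun b => (Sum.inl (g b) : Base x R)) (T : Set (Base x R)) := by
        intro b hb b' hb' hbb
        exact hg hb hb' (Sum.inl_injective hbb)
      have h1 := or_of_or ha (List.replicate (K + 1) (Sum.inr (Sum.inr f))) (by simp)
        (T.image (fun b => (Sum.inl (g b) : Base x R))) (by
          rw [image_shuffle_zero, image_answer]
          simp [Set.image_image, land, hgdef])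
      have hcard : (T.image (fun b => (Sum.inl (g b) : Base x R))).card = T.card :=
        Finset.card_image_of_injOn hinj
      have hlow : Low (T.image (fun b => (Sum.inl (g b) : Base x R))) := by
        intro s s' hs hs'
        rw [Finset.mem_image] at hs
        obtain ⟨b, hb, hbs⟩ := hs
        simp at hbs
      obtain ⟨h3, -⟩ := ih _ (by omega) (hn.image _) h1
      have h4 := h3 hlow
      rw [hcard] at h4
      refine ⟨fun _ => by omega, fun i j hH => ?_⟩
      have hm := mark_lt i j
      have := arith_aux (t := i.val * (R + 1) + j.val + 1) hH.two_le (by omega) h4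
      omega

theorem lower_univ {N : ℕ} (hx : 0 < x)
    (h : Wins (K + 1) (step (x := x) (R := R) (K := K)) N Set.univ) :
    (x - 1) * ((R + 1) * (R + 1) + 1) ≤ N := by
  have hc : (Finset.univ.image (Sum.inl : Fin x → Base x R)).card = x := by
    rw [Finset.card_image_of_injective _ Sum.inl_injective]
    simp
  have hn : (Finset.univ.image (Sum.inl : Fin x → Base x R)).Nonempty := by
    rw [← Finset.card_pos, hc]; exact hx
  have h1 := (lower (K := K) N (Finset.univ.image (Sum.inl : Fin x → Base x R)) (by omega) hn
    (Or.inr (h.mono_set (Set.subset_univ _)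
      ((by exact_mod_cast hn : ((Finset.univ.image (Sum.inl : Fin x → Base x R) :
        Finset (Base x R)) : Set (Base x R)).Nonempty).image _)))).1
  rw [hc] at h1
  apply h1
  intro s s' hs
  simp at hs

theorem exists_wins_univ :
    ∃ N, Wins (K + 1) (step (x := x) (R := R) (K := K)) N Set.univ :=
  ⟨_, wins_of_pairs (M := (R + 1) * (R + 1) + 3) (fun p q _ => wins_pair p q) _ Set.univ
    Set.finite_univ ⟨Sum.inl (Sum.inr (Sum.inl 0)), trivial⟩ le_rfl⟩

theorem card_state : Fintype.card (State x R K) =
    (K + 2) * x + (4 * K + 6) * (R + 1) := by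
  simp [State, Base, Mark]
  ring

end Construction

/-- For all parameters there is an automaton with any sufficiently large number of states. -/
theorem exists_automaton (K x R e : ℕ) (hx : 0 < x) :
    ∃ δ : (State x R K ⊕ Fin e) → Letter x R → (State x R K ⊕ Fin e),
      IsAk (K + 1) δ ∧ (x - 1) * ((R + 1) * (R + 1) + 1) ≤ gameLength (K + 1) δ := by
  set π : (State x R K ⊕ Fin e) → State x R K :=
    Sum.elim id (fun _ => Sum.inl (Sum.inr (Sum.inl 0))) with hπ
  have hπι : ∀ q : State x R K, π (Sum.inl q) = q := fun q => rfl
  have huniv : π '' Set.univ = Set.univ := by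
    ext q
    simp only [Set.mem_image, Set.mem_univ, true_and, iff_true]
    exact ⟨Sum.inl q, rfl⟩
  refine ⟨fun q' a => Sum.inl (step (π q') a), ?_⟩
  obtain ⟨N, hN⟩ := exists_wins_univ (x := x) (R := R) (K := K)
  have h1 : ∀ N, Wins (K + 1) (fun (q' : State x R K ⊕ Fin e) (a : Letter x R) =>
      (Sum.inl (step (π q') a) : State x R K ⊕ Fin e)) N Set.univ ↔
      Wins (K + 1) (step (x := x) (R := R) (K := K)) N Set.univ := by
    intro N
    rw [wins_dup_iff π Sum.inl hπι, huniv]
  exact ⟨isAk_of_wins ((h1 N).mpr hN),
    le_gameLength ((h1 N).mpr hN) fun N' hN' => lower_univ hx ((h1 N').mp hN')⟩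

theorem card_letter (x R : ℕ) : Fintype.card (Letter x R) =
    1 + ((x + 2 * (R + 1)) * (x + 2 * (R + 1)) + x * x) := by
  simp [Letter, Base, Mark]
  ring

/-- **Main theorem.** For every `k ≥ 1` there are `c > 0` and `n₀` such that for every `n ≥ n₀`
there is an `A_k`-automaton with `n` states and at most `n ^ 2` letters whose `k`-game length is at
least `c * n ^ 3`. -/
theorem result (k : ℕ) (hk : 1 ≤ k) : ∃ c : ℝ, 0 < c ∧ ∃ n₀ : ℕ, ∀ n : ℕ, n₀ ≤ n →
    ∃ (Q Γ : Type) (_ : Fintype Q) (_ : Fintype Γ) (_ : Nonempty Γ) (δ : Q → Γ → Q),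
      Fintype.card Q = n ∧ Fintype.card Γ ≤ n ^ 2 ∧ IsAk k δ ∧
        c * (n : ℝ) ^ 3 ≤ (gameLength k δ : ℝ) := by
  obtain ⟨K, rfl⟩ : ∃ K, k = K + 1 := ⟨k - 1, by omega⟩
  set D : ℕ := 5 * K + 8 with hD
  refine ⟨1 / (16 * (D : ℝ) ^ 3), by positivity, 2 * D, fun n hn => ?_⟩
  set r : ℕ := n / D with hr
  have hDpos : 0 < D := by omega
  have hr2 : 2 ≤ r := by
    rw [hr, Nat.le_div_iff_mul_le hDpos]
    exact hn
  have hrn : D * r ≤ n := Nat.mul_div_le n D
  have hnr : n < D * (r + 1) := by
    rw [hr]
    have := Nat.lt_mul_div_succ n hDpos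
    exact this
  obtain ⟨δ, h1, h2⟩ := exists_automaton K r (r - 1) (n - D * r) (by omega)
  refine ⟨_, _, inferInstance, inferInstance, inferInstance, δ, ?_, ?_, h1, ?_⟩
  · rw [Fintype.card_sum, card_state, Fintype.card_fin]
    have e1 : r - 1 + 1 = r := by omega
    have e2 : (K + 2) * r + (4 * K + 6) * r = D * r := by rw [hD]; ring
    rw [e1, e2]
    omega
  · rw [card_letter]
    have e1 : r - 1 + 1 = r := by omega
    rw [e1]
    have e3 : 8 * r ≤ n := le_trans (Nat.mul_le_mul_right r (by omega)) hrn
    nlinarith
  · have e1 : r - 1 + 1 = r := by omega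
    rw [e1] at h2
    have h3 : ((r - 1 : ℕ) : ℝ) * ((r : ℝ) * r + 1) ≤ (gameLength (K + 1) δ : ℝ) := by
      exact_mod_cast h2
    have h4 : ((r - 1 : ℕ) : ℝ) = (r : ℝ) - 1 := by
      rw [Nat.cast_sub (by omega)]
      simp
    have h5 : (2 : ℝ) ≤ r := by exact_mod_cast hr2
    have h6 : (n : ℝ) ≤ D * (2 * r) := by
      have : n ≤ D * (2 * r) := by nlinarith
      exact_mod_cast this
    have hDr : (0 : ℝ) < D := by exact_mod_cast hDpos
    have h7 : (n : ℝ) ^ 3 ≤ (D * (2 * r)) ^ 3 := by
      gcongr
    have h8 : 1 / (16 * (D : ℝ) ^ 3) * (n : ℝ) ^ 3 ≤ (r : ℝ) ^ 3 / 2 := by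
      rw [div_mul_eq_mul_div, one_mul, div_le_div_iff₀ (by positivity) (by positivity)]
      nlinarith
    refine h8.trans (le_trans ?_ h3)
    rw [h4]
    nlinarith [mul_nonneg (sub_nonneg.mpr h5) (mul_self_nonneg (r : ℝ))]

end Pool.Agent.Results.MP_3d7070_lc.CubicGame
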